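import Pool.Agent.Q218.HB.Stm

/-! # Project HB of helper218: job CONT, the resolvent is continuous in the potential -/

set_option autoImplicit false

namespace Pool.Agent.Q129.HB

open Pool.Agent.Q218.HB

theorem cont (inv : S_INV) : S_CONT := by
  intro Λ _ _ h z hh hz x y
  have hA : Continuous fun V : Λ → ℝ => Hm h V - z • (1 : Matrix Λ Λ ℂ) := by
    refine continuous_matrix fun i j => ?_
    simp only [Matrix.sub_apply, Hm]
    by_cases hij : i = j
    · simp only [hij, if_true]
      fun_prop
    · simp only [hij, if_false]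
      fun_prop
  have hdet : ∀ V : Λ → ℝ, (Hm h V - z • (1 : Matrix Λ Λ ℂ)).det ≠ 0 := by
    intro V h0
    have h1 := congrArg Matrix.det (inv Λ h V z hh hz).1
    rw [Matrix.det_mul, h0, zero_mul, Matrix.det_one] at h1
    exact zero_ne_one h1
  have hG : Continuous fun V : Λ → ℝ => G h V z := by
    have e : (fun V : Λ → ℝ => G h V z) = fun V : Λ → ℝ =>
        ((Hm h V - z • (1 : Matrix Λ Λ ℂ)).det)⁻¹ • (Hm h V - z • (1 : Matrix Λ Λ ℂ)).adjugate := by
      funext V
      rw [G, Matrix.inv_def, Ring.inverse_eq_inv']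
    rw [e]
    exact (hA.matrix_det.inv₀ hdet).smul hA.matrix_adjugate
  exact hG.matrix_elem x y

end Pool.Agent.Q129.HB
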