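import Pool.Agent.Q129.HB.IRR

/-!
# HB-GC: good coordinates exist
-/

set_option autoImplicit false

namespace Pool.Agent.Q129.HB

open MvPolynomial Pool.Agent.Q35.ST Pool.Agent.Q35.HB

section

variable {κ : Type} [Fintype κ] [DecidableEq κ] {n : κ → ℕ} {k : Type} [Field k]

/-- the chain rule for a linear change of coordinates -/
lemma pderiv_lin (g : ∀ l : κ, Matrix (Fin (n l + 1)) (Fin (n l + 1)) k) (l : κ)
    (j : Fin (n l + 1)) (f : MvPolynomial (Pc n) k) :
    pderiv (⟨l, j⟩ : Pc n) (lin g f) =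
      ∑ i, C (g l i j) * lin g (pderiv (⟨l, i⟩ : Pc n) f) := by
  have hX : ∀ s : Pc n, pderiv (⟨l, j⟩ : Pc n) (lin g (X s)) =
      ∑ i, C (g l i j) * lin g (pderiv (⟨l, i⟩ : Pc n) (X s)) := by
    rintro ⟨m, a⟩
    unfold lin
    rw [aeval_X, map_sum]
    by_cases hm : m = l
    · subst hm
      rw [Finset.sum_eq_single j, Finset.sum_eq_single a]
      · rw [pderiv_C_mul, pderiv_X_self, pderiv_X_self, map_one]
      · intro b _ hb
        rw [pderiv_X_of_ne, map_zero, mul_zero]
        intro h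
        apply hb
        have := (Sigma.mk.inj_iff.mp h).2
        exact (eq_of_heq this).symm
      · intro h
        exact absurd (Finset.mem_univ a) h
      · intro b _ hb
        rw [pderiv_C_mul, pderiv_X_of_ne, mul_zero]
        intro h
        apply hb
        exact eq_of_heq (Sigma.mk.inj_iff.mp h).2
      · intro h
        exact absurd (Finset.mem_univ j) h
    · rw [Finset.sum_eq_zero, Finset.sum_eq_zero]
      · intro b _
        rw [pderiv_X_of_ne, map_zero, mul_zero]
        intro h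
        exact hm (Sigma.mk.inj_iff.mp h).1
      · intro b _
        rw [pderiv_C_mul, pderiv_X_of_ne, mul_zero]
        intro h
        exact hm (Sigma.mk.inj_iff.mp h).1
  induction f using MvPolynomial.induction_on with
  | C a =>
    have h1 : lin g (C a) = C a := by
      unfold lin
      rw [aeval_C]
      rfl
    rw [h1, pderiv_C]
    symm
    refine Finset.sum_eq_zero fun i _ => ?_
    rw [pderiv_C, map_zero, mul_zero]
  | add p q hp hq =>
    rw [map_add, map_add, hp, hq, ← Finset.sum_add_distrib]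
    refine Finset.sum_congr rfl fun i _ => ?_
    rw [map_add, map_add, mul_add]
  | mul_X p s hp =>
    rw [map_mul, pderiv_mul, hp, hX, Finset.sum_mul, Finset.mul_sum, ← Finset.sum_add_distrib]
    refine Finset.sum_congr rfl fun i _ => ?_
    rw [pderiv_mul, map_add, map_mul, map_mul]
    ring

/-- the polar form of the quadratic form in the block `l` -/
noncomputable def Bq (F : MvPolynomial (Pc n) k) (l : κ)
    (v w : Fin (n l + 1) → MvPolynomial (Pc n) k) : MvPolynomial (Pc n) k :=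
  ∑ a, ∑ b, v a * w b * pderiv (⟨l, b⟩ : Pc n) (pderiv ⟨l, a⟩ F)

lemma lin_C (g : ∀ l : κ, Matrix (Fin (n l + 1)) (Fin (n l + 1)) k) (c : k) :
    lin g (C c : MvPolynomial (Pc n) k) = C c := by
  unfold lin
  rw [aeval_C]
  rfl

lemma pderiv2_lin (F : MvPolynomial (Pc n) k)
    (g : ∀ l : κ, Matrix (Fin (n l + 1)) (Fin (n l + 1)) k) (l : κ) (i j : Fin (n l + 1)) :
    pderiv (⟨l, i⟩ : Pc n) (pderiv ⟨l, j⟩ (lin g F)) =
      lin g (Bq F l (fun a => C (g l a j)) (fun b => C (g l b i))) := by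
  unfold Bq
  rw [pderiv_lin, map_sum, map_sum]
  refine Finset.sum_congr rfl fun a _ => ?_
  rw [pderiv_C_mul, pderiv_lin, Finset.mul_sum, map_sum]
  refine Finset.sum_congr rfl fun b _ => ?_
  rw [map_mul, map_mul, lin_C, lin_C]
  ring

lemma lin_inj (g : ∀ l : κ, Matrix (Fin (n l + 1)) (Fin (n l + 1)) k)
    (hg : ∀ l, IsUnit (g l).det) : Function.Injective (lin g : MvPolynomial (Pc n) k →ₐ[k] _) := by
  have h : (lin (fun l => (g l)⁻¹)).comp (lin g) = AlgHom.id k (MvPolynomial (Pc n) k) := by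
    apply MvPolynomial.algHom_ext
    rintro ⟨l, i⟩
    rw [AlgHom.comp_apply, AlgHom.id_apply]
    have h1 : lin g (X (⟨l, i⟩ : Pc n)) = ∑ j, C (g l i j) * X (⟨l, j⟩ : Pc n) := by
      unfold lin
      rw [aeval_X]
    have h2 : ∀ j, lin (fun l => (g l)⁻¹) (X (⟨l, j⟩ : Pc n)) =
        ∑ m, C ((g l)⁻¹ j m) * X (⟨l, m⟩ : Pc n) := by
      intro j
      unfold lin
      rw [aeval_X]
    rw [h1, map_sum]
    have h3 : ∀ j, lin (fun l => (g l)⁻¹) (C (g l i j) * X (⟨l, j⟩ : Pc n)) =
        ∑ m, C (g l i j * (g l)⁻¹ j m) * X (⟨l, m⟩ : Pc n) := by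
      intro j
      rw [map_mul, lin_C, h2, Finset.mul_sum]
      refine Finset.sum_congr rfl fun m _ => ?_
      rw [C_mul]
      ring
    rw [Finset.sum_congr rfl fun j _ => h3 j, Finset.sum_comm]
    have h4 : ∀ m, ∑ j, C (g l i j * (g l)⁻¹ j m) * X (⟨l, m⟩ : Pc n) =
        if m = i then (X (⟨l, i⟩ : Pc n) : MvPolynomial (Pc n) k) else 0 := by
      intro m
      rw [← Finset.sum_mul, ← map_sum]
      have h5 : ∑ j, g l i j * (g l)⁻¹ j m = (g l * (g l)⁻¹) i m := by
        rw [Matrix.mul_apply]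
      rw [h5, Matrix.mul_nonsing_inv _ (hg l), Matrix.one_apply]
      by_cases hm : m = i
      · subst hm
        rw [if_pos rfl, if_pos rfl, C_1, one_mul]
      · rw [if_neg (Ne.symm hm), if_neg hm, C_0, zero_mul]
    rw [Finset.sum_congr rfl fun m _ => h4 m, Finset.sum_ite_eq', if_pos (Finset.mem_univ i)]
  intro a b hab
  have h1 := congrArg (fun φ => φ a) h
  have h2 := congrArg (fun φ => φ b) h
  simp only [AlgHom.comp_apply, AlgHom.id_apply] at h1 h2
  rw [← h1, ← h2, hab]

end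

section

variable {κ : Type} [Fintype κ] [DecidableEq κ] {n : κ → ℕ} {k : Type} [Field k] [CharZero k]

lemma bq_xx {F : MvPolynomial (Pc n) k} (hF : MH Set.univ (fun _ => 2) F) (l : κ) :
    Bq F l (fun a => X ⟨l, a⟩) (fun a => X ⟨l, a⟩) = C 2 * F := by
  have h0 : ∀ a, ∑ b, X (⟨l, a⟩ : Pc n) * X ⟨l, b⟩ * pderiv (⟨l, b⟩ : Pc n) (pderiv ⟨l, a⟩ F) =
      X (⟨l, a⟩ : Pc n) * pderiv ⟨l, a⟩ F := by
    intro a
    have h1 := MH.EU (MH.pderiv hF (⟨l, a⟩ : Pc n)) (Set.mem_univ l)
    simp only [if_true] at h1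
    unfold EU at h1
    have h2 : ((2 - 1 : ℕ) : k) = 1 := by norm_num
    rw [h2, C_1, one_mul] at h1
    conv_rhs => rw [← h1, Finset.mul_sum]
    refine Finset.sum_congr rfl fun b _ => ?_
    ring
  unfold Bq
  rw [Finset.sum_congr rfl fun a _ => h0 a]
  have h3 := MH.EU hF (Set.mem_univ l)
  unfold EU at h3
  rw [h3]
  norm_num

lemma bq_ex {F : MvPolynomial (Pc n) k} (hF : MH Set.univ (fun _ => 2) F) (l : κ)
    (a0 : Fin (n l + 1)) :
    Bq F l (fun a => if a = a0 then 1 else 0) (fun a => X ⟨l, a⟩) = pderiv ⟨l, a0⟩ F := by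
  unfold Bq
  rw [Finset.sum_eq_single a0]
  · have h1 := MH.EU (MH.pderiv hF (⟨l, a0⟩ : Pc n)) (Set.mem_univ l)
    simp only [if_true] at h1
    unfold EU at h1
    have h2 : ((2 - 1 : ℕ) : k) = 1 := by norm_num
    rw [h2, C_1, one_mul] at h1
    conv_rhs => rw [← h1]
    refine Finset.sum_congr rfl fun b _ => ?_
    simp only [if_true, one_mul]
  · intro a _ ha
    refine Finset.sum_eq_zero fun b _ => ?_
    simp only [ha, if_false, zero_mul]
  · intro h
    exact absurd (Finset.mem_univ a0) h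

/-- the discriminant is not zero -/
lemma disc_ne {F : MvPolynomial (Pc n) k} (hF : MH Set.univ (fun _ => 2) F)
    (hirr : Irreducible F) (l : κ) : ∃ a0 : Fin (n l + 1),
      (Bq F l (fun a => if a = a0 then 1 else 0) (fun a => X ⟨l, a⟩)) ^ 2 -
        Bq F l (fun a => X ⟨l, a⟩) (fun a => X ⟨l, a⟩) *
        Bq F l (fun a => if a = a0 then 1 else 0) (fun a => if a = a0 then 1 else 0) ≠ 0 := by
  have hF0 : F ≠ 0 := hirr.ne_zero
  obtain ⟨a0, ha0⟩ : ∃ a0 : Fin (n l + 1), pderiv (⟨l, a0⟩ : Pc n) F ≠ 0 := by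
    by_contra hcon
    push Not at hcon
    have h3 := MH.EU hF (Set.mem_univ l)
    unfold EU at h3
    rw [Finset.sum_eq_zero (fun i _ => by rw [hcon i, mul_zero])] at h3
    have h4 := (mul_eq_zero.mp h3.symm).resolve_right hF0
    rw [C_eq_zero] at h4
    norm_num at h4
  refine ⟨a0, ?_⟩
  rw [bq_ex hF, bq_xx hF]
  intro h0
  have hdvd : F ∣ (pderiv (⟨l, a0⟩ : Pc n) F) ^ 2 :=
    ⟨C 2 * Bq F l (fun a => if a = a0 then 1 else 0) (fun a => if a = a0 then 1 else 0), by
      rw [sub_eq_zero] at h0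
      rw [h0]
      ring⟩
  obtain ⟨Q, hQ⟩ := (hirr.prime).dvd_of_dvd_pow hdvd
  have hm := MH.pderiv hF (⟨l, a0⟩ : Pc n)
  rw [hQ] at hm ha0
  obtain ⟨g, e, hge, hg, -⟩ := mh_factor hm ha0
  have h1 := hge l
  simp only [if_true] at h1
  obtain ⟨m, hmm⟩ := MvPolynomial.support_nonempty.mpr hF0
  have h2 := hg m hmm l (Set.mem_univ l)
  have h3 : ∑ i, m ⟨l, i⟩ = 2 := hF m hmm l (Set.mem_univ l)
  omega

/-- the polar form over the polynomials in the entries of a matrix -/
noncomputable def BR (F : MvPolynomial (Pc n) k) (l : κ)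
    (v w : Fin (n l + 1) → MvPolynomial (Fin (n l + 1) × Fin (n l + 1)) (MvPolynomial (Pc n) k)) :
    MvPolynomial (Fin (n l + 1) × Fin (n l + 1)) (MvPolynomial (Pc n) k) :=
  ∑ a, ∑ b, v a * w b * C (pderiv (⟨l, b⟩ : Pc n) (pderiv ⟨l, a⟩ F))

lemma eval_BR (F : MvPolynomial (Pc n) k) (l : κ)
    (p : Fin (n l + 1) × Fin (n l + 1) → MvPolynomial (Pc n) k)
    (v w : Fin (n l + 1) → MvPolynomial (Fin (n l + 1) × Fin (n l + 1)) (MvPolynomial (Pc n) k)) :
    eval p (BR F l v w) = Bq F l (fun a => eval p (v a)) (fun a => eval p (w a)) := by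
  unfold Bq BR
  simp only [map_sum, map_mul, eval_C]

/-- the columns of the generic matrix -/
noncomputable def col (n : κ → ℕ) (k : Type) [Field k] (l : κ) (j a : Fin (n l + 1)) :
    MvPolynomial (Fin (n l + 1) × Fin (n l + 1)) (MvPolynomial (Pc n) k) := X (a, j)

lemma br_ne1 {F : MvPolynomial (Pc n) k} (hF : MH Set.univ (fun _ => 2) F) (hF0 : F ≠ 0) (l : κ)
    (i : Fin (n l + 1)) : BR F l (col n k l i) (col n k l i) ≠ 0 := by
  intro h0
  have h1 := congrArg (eval (fun p : Fin (n l + 1) × Fin (n l + 1) =>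
    (X (⟨l, p.1⟩ : Pc n) : MvPolynomial (Pc n) k))) h0
  rw [eval_BR, map_zero] at h1
  have h2 : (fun a => eval (fun p : Fin (n l + 1) × Fin (n l + 1) =>
      (X (⟨l, p.1⟩ : Pc n) : MvPolynomial (Pc n) k)) (col n k l i a)) =
      fun a => X (⟨l, a⟩ : Pc n) := by
    funext a
    unfold col
    rw [eval_X]
  rw [h2, bq_xx hF] at h1
  rcases mul_eq_zero.mp h1 with h3 | h3
  · rw [C_eq_zero] at h3
    norm_num at h3
  · exact hF0 h3

lemma br_ne2 {F : MvPolynomial (Pc n) k} (hF : MH Set.univ (fun _ => 2) F)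
    (hirr : Irreducible F) (l : κ) (i j : Fin (n l + 1)) (hij : j ≠ i) :
    (BR F l (col n k l j) (col n k l i)) ^ 2 -
      BR F l (col n k l i) (col n k l i) * BR F l (col n k l j) (col n k l j) ≠ 0 := by
  intro h0
  obtain ⟨a0, ha0⟩ := disc_ne hF hirr l
  set p : Fin (n l + 1) × Fin (n l + 1) → MvPolynomial (Pc n) k := fun p =>
    if p.2 = i then X (⟨l, p.1⟩ : Pc n) else if p.1 = a0 then 1 else 0 with hp
  have h1 := congrArg (eval p) h0
  rw [map_sub, map_pow, map_mul, eval_BR, eval_BR, eval_BR, map_zero] at h1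
  have h2 : (fun a => eval p (col n k l i a)) = fun a => X (⟨l, a⟩ : Pc n) := by
    funext a
    unfold col
    rw [eval_X, hp]
    simp only [if_true]
  have h3 : (fun a => eval p (col n k l j a)) = fun a => if a = a0 then 1 else 0 := by
    funext a
    unfold col
    rw [eval_X, hp]
    simp only [hij, if_false]
  rw [h2, h3] at h1
  exact ha0 h1

/-- good coordinates in one block -/
lemma exists_block {F : MvPolynomial (Pc n) k} (hF : MH Set.univ (fun _ => 2) F)
    (hirr : Irreducible F) (l : κ) : ∃ M : Matrix (Fin (n l + 1)) (Fin (n l + 1)) k,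
      IsUnit M.det ∧
      (∀ i, Bq F l (fun a => C (M a i)) (fun a => C (M a i)) ≠ 0) ∧
      ∀ i j, j ≠ i → (Bq F l (fun a => C (M a j)) (fun a => C (M a i))) ^ 2 -
        Bq F l (fun a => C (M a i)) (fun a => C (M a i)) *
        Bq F l (fun a => C (M a j)) (fun a => C (M a j)) ≠ 0 := by
  classical
  have hF0 : F ≠ 0 := hirr.ne_zero
  have hQ0 : (Matrix.mvPolynomialX (Fin (n l + 1)) (Fin (n l + 1)) (MvPolynomial (Pc n) k)).det *
    ((∏ i, BR F l (col n k l i) (col n k l i)) *
      ∏ i, ∏ j, if j ≠ i then (BR F l (col n k l j) (col n k l i)) ^ 2 -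
        BR F l (col n k l i) (col n k l i) * BR F l (col n k l j) (col n k l j) else 1) ≠ 0 := by
    refine mul_ne_zero (Matrix.det_mvPolynomialX_ne_zero _ _) (mul_ne_zero ?_ ?_)
    · exact Finset.prod_ne_zero_iff.mpr fun i _ => br_ne1 hF hF0 l i
    · refine Finset.prod_ne_zero_iff.mpr fun i _ => Finset.prod_ne_zero_iff.mpr fun j _ => ?_
      by_cases h : j ≠ i
      · rw [if_pos h]
        exact br_ne2 hF hirr l i j h
      · rw [if_neg h]
        exact one_ne_zero
  obtain ⟨p, hp, hpQ⟩ : ∃ p : Fin (n l + 1) × Fin (n l + 1) → MvPolynomial (Pc n) k,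
      p ∈ Set.pi Set.univ (fun _ => Set.range (C : k → MvPolynomial (Pc n) k)) ∧ eval p
        ((Matrix.mvPolynomialX (Fin (n l + 1)) (Fin (n l + 1)) (MvPolynomial (Pc n) k)).det *
          ((∏ i, BR F l (col n k l i) (col n k l i)) *
      ∏ i, ∏ j, if j ≠ i then (BR F l (col n k l j) (col n k l i)) ^ 2 -
        BR F l (col n k l i) (col n k l i) * BR F l (col n k l j) (col n k l j) else 1)) ≠ 0 := by
    by_contra hcon
    push Not at hcon
    apply hQ0
    refine MvPolynomial.funext_set (fun _ => Set.range (C : k → MvPolynomial (Pc n) k))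
      (fun _ => ?_) ?_
    · exact Set.infinite_range_of_injective (C_injective _ _)
    · intro x hx
      rw [hcon x hx, map_zero]
  choose M0 hM0 using fun ij => hp ij (Set.mem_univ ij)
  have hcolM : ∀ i, (fun a => eval p (col n k l i a)) =
      fun a => (C (M0 (a, i)) : MvPolynomial (Pc n) k) := by
    intro i
    funext a
    unfold col
    rw [eval_X]
    exact (hM0 (a, i)).symm
  rw [map_mul, map_mul] at hpQ
  have q1 := left_ne_zero_of_mul hpQ
  have q2 := right_ne_zero_of_mul hpQ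
  have q3 := left_ne_zero_of_mul q2
  have q4 := right_ne_zero_of_mul q2
  refine ⟨Matrix.of fun a j => M0 (a, j), ?_, ?_, ?_⟩
  · rw [isUnit_iff_ne_zero]
    intro h0
    apply q1
    rw [RingHom.map_det]
    have h1 : (eval p).mapMatrix
        (Matrix.mvPolynomialX (Fin (n l + 1)) (Fin (n l + 1)) (MvPolynomial (Pc n) k)) =
        (C : k →+* MvPolynomial (Pc n) k).mapMatrix (Matrix.of fun a j => M0 (a, j)) := by
      refine Matrix.ext fun a j => ?_
      rw [RingHom.mapMatrix_apply, RingHom.mapMatrix_apply, Matrix.map_apply, Matrix.map_apply,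
        Matrix.mvPolynomialX_apply, eval_X]
      exact (hM0 (a, j)).symm
    rw [h1, ← RingHom.map_det, h0, map_zero]
  · intro i
    rw [map_prod] at q3
    have h1 := Finset.prod_ne_zero_iff.mp q3 i (Finset.mem_univ i)
    rw [eval_BR, hcolM] at h1
    exact h1
  · intro i j hij
    rw [map_prod] at q4
    have h1 := Finset.prod_ne_zero_iff.mp q4 i (Finset.mem_univ i)
    rw [map_prod] at h1
    have h2 := Finset.prod_ne_zero_iff.mp h1 j (Finset.mem_univ j)
    rw [if_pos hij, map_sub, map_pow, map_mul, eval_BR, eval_BR, eval_BR, hcolM, hcolM] at h2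
    exact h2

end

theorem gc : S_GC := by
  intro κ _ _ n k _ _ F hF _ hirr
  choose g hg1 hg2 hg3 using fun l => exists_block hF hirr l
  refine ⟨g, hg1, ?_⟩
  have hinj := lin_inj g hg1
  intro l i
  refine ⟨?_, ?_⟩
  · rw [pderiv2_lin]
    intro h0
    exact hg2 l i (hinj (h0.trans (map_zero _).symm))
  · intro j hij
    unfold hm
    rw [pderiv2_lin, pderiv2_lin, pderiv2_lin, ← map_pow, ← map_mul, ← map_sub]
    intro h0
    exact hg3 l i j hij (hinj (h0.trans (map_zero _).symm))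

end Pool.Agent.Q129.HB
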