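import Pool.Agent.Q129.HB.RAD

/-!
# HB-IRR: smooth hypersurfaces are irreducible
-/

set_option autoImplicit false

namespace Pool.Agent.Q129.HB

open MvPolynomial Pool.Agent.Q35.ST Pool.Agent.Q35.HB

section

variable {κ : Type} {n : κ → ℕ} {k : Type} [Field k]

/-- scaling the block `l` by a new variable -/
noncomputable def th [DecidableEq κ] (l : κ) :
    MvPolynomial (Pc n) k →ₐ[k] Polynomial (MvPolynomial (Pc n) k) :=
  aeval (fun s => if s.1 = l then Polynomial.C (X s) * Polynomial.X else Polynomial.C (X s))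

lemma th_monomial [Fintype κ] [DecidableEq κ] (l : κ) (m : Pc n →₀ ℕ) (c : k) :
    th l (monomial m c) = Polynomial.monomial (bd l m) (monomial m c) := by
  unfold th
  rw [aeval_monomial, Finsupp.prod_fintype _ _ (fun _ => pow_zero _)]
  have h1 : ∀ s : Pc n, (if s.1 = l then Polynomial.C (X s) * Polynomial.X
      else Polynomial.C (X s) : Polynomial (MvPolynomial (Pc n) k)) ^ m s =
      Polynomial.C (X s ^ m s) * Polynomial.X ^ (if s.1 = l then m s else 0) := by
    intro s
    split_ifs with h
    · rw [mul_pow, Polynomial.C_pow]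
    · rw [pow_zero, mul_one, Polynomial.C_pow]
  rw [Finset.prod_congr rfl fun s _ => h1 s, Finset.prod_mul_distrib, Finset.prod_pow_eq_pow_sum,
    ← map_prod]
  have h2 : ∑ s : Pc n, (if s.1 = l then m s else 0) = bd l m := by
    rw [Fintype.sum_sigma, Finset.sum_eq_single l]
    · unfold bd
      refine Finset.sum_congr rfl fun i _ => ?_
      rw [if_pos rfl]
    · intro j _ hj
      refine Finset.sum_eq_zero fun i _ => ?_
      rw [if_neg hj]
    · intro h
      exact absurd (Finset.mem_univ l) h
  rw [h2, ← mul_assoc]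
  have h3 : (algebraMap k (Polynomial (MvPolynomial (Pc n) k))) c *
      Polynomial.C (∏ s : Pc n, (X s : MvPolynomial (Pc n) k) ^ m s) =
      Polynomial.C (monomial m c) := by
    rw [Polynomial.algebraMap_apply, ← Polynomial.C_mul]
    congr 1
    rw [monomial_eq, Finsupp.prod_fintype _ _ (fun _ => pow_zero _)]
    rfl
  rw [h3, Polynomial.C_mul_X_pow_eq_monomial]

lemma th_coeff [Fintype κ] [DecidableEq κ] (l : κ) (f : MvPolynomial (Pc n) k) (m : Pc n →₀ ℕ) :
    coeff m ((th l f).coeff (bd l m)) = coeff m f := by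
  conv_lhs => rw [f.as_sum]
  rw [map_sum, Polynomial.finsetSum_coeff, coeff_sum]
  have h1 : ∀ a ∈ f.support, coeff m ((th l (monomial a (coeff a f))).coeff (bd l m)) =
      if a = m then coeff a f else 0 := by
    intro a _
    rw [th_monomial, Polynomial.coeff_monomial]
    by_cases h : a = m
    · subst h
      rw [if_pos rfl, if_pos rfl, coeff_monomial, if_pos rfl]
    · rw [if_neg h]
      split_ifs
      · rw [coeff_monomial, if_neg h]
      · rw [coeff_zero]
  rw [Finset.sum_congr rfl h1, Finset.sum_ite_eq']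
  split_ifs with h
  · rfl
  · rw [notMem_support_iff.mp h]

lemma th_mh [Fintype κ] [DecidableEq κ] (l : κ) {u : κ → ℕ} {f : MvPolynomial (Pc n) k}
    (hf : MH Set.univ u f) : th l f = Polynomial.monomial (u l) f := by
  conv_lhs => rw [f.as_sum]
  conv_rhs => rw [f.as_sum]
  rw [map_sum, map_sum]
  refine Finset.sum_congr rfl fun m hm => ?_
  rw [th_monomial]
  have h1 : bd l m = u l := hf m hm l (Set.mem_univ l)
  rw [h1]

/-- the factors of a multihomogeneous polynomial are multihomogeneous -/
lemma mh_factor [Fintype κ] [DecidableEq κ] {u : κ → ℕ} {G H : MvPolynomial (Pc n) k}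
    (h : MH Set.univ u (G * H)) (h0 : G * H ≠ 0) :
    ∃ g e : κ → ℕ, (∀ l, g l + e l = u l) ∧ MH Set.univ g G ∧ MH Set.univ e H := by
  have hG0 : G ≠ 0 := left_ne_zero_of_mul h0
  have hH0 : H ≠ 0 := right_ne_zero_of_mul h0
  have key : ∀ l, (th l G).natDegree + (th l H).natDegree = u l ∧
      (th l G).natTrailingDegree = (th l G).natDegree ∧
      (th l H).natTrailingDegree = (th l H).natDegree := by
    intro l
    have e1 : th l G * th l H = Polynomial.monomial (u l) (G * H) := by
      rw [← map_mul]
      exact th_mh l h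
    have n0 : th l G * th l H ≠ 0 := by
      rw [e1]
      intro h1
      exact h0 ((Polynomial.monomial_eq_zero_iff _ _).mp h1)
    have a0 : th l G ≠ 0 := left_ne_zero_of_mul n0
    have b0 : th l H ≠ 0 := right_ne_zero_of_mul n0
    have d1 : (th l G).natDegree + (th l H).natDegree = u l := by
      rw [← Polynomial.natDegree_mul a0 b0, e1]
      exact Polynomial.natDegree_monomial_eq _ h0
    have d2 : (th l G).natTrailingDegree + (th l H).natTrailingDegree = u l := by
      rw [← Polynomial.natTrailingDegree_mul a0 b0, e1]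
      exact Polynomial.natTrailingDegree_monomial h0
    have l1 := Polynomial.natTrailingDegree_le_natDegree (th l G)
    have l2 := Polynomial.natTrailingDegree_le_natDegree (th l H)
    refine ⟨d1, by omega, by omega⟩
  have gen : ∀ f : MvPolynomial (Pc n) k,
      (∀ l, (th l f).natTrailingDegree = (th l f).natDegree) →
      MH Set.univ (fun l => (th l f).natDegree) f := by
    intro f hf m hm l _
    have h1 : (th l f).coeff (bd l m) ≠ 0 := by
      intro h2
      have h3 := th_coeff l f m
      rw [h2, coeff_zero] at h3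
      exact mem_support_iff.mp hm h3.symm
    have h2 := Polynomial.le_natDegree_of_ne_zero h1
    have h3 := Polynomial.natTrailingDegree_le_of_ne_zero h1
    rw [hf l] at h3
    exact le_antisymm h2 h3
  exact ⟨fun l => (th l G).natDegree, fun l => (th l H).natDegree, fun l => (key l).1,
    gen G fun l => (key l).2.1, gen H fun l => (key l).2.2⟩

/-- a polynomial of degree zero in the block `l` does not depend on it -/
lemma aeval_congr_block [Fintype κ] [DecidableEq κ] {Ω : Type} [Field Ω] [Algebra k Ω]
    {u : κ → ℕ} {f : MvPolynomial (Pc n) k} (hf : MH Set.univ u f) (l : κ) (hl : u l = 0)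
    (z z' : Pc n → Ω) (hz : ∀ s : Pc n, s.1 ≠ l → z s = z' s) : aeval z f = aeval z' f := by
  rw [f.as_sum, map_sum, map_sum]
  refine Finset.sum_congr rfl fun m hm => ?_
  rw [aeval_monomial, aeval_monomial]
  congr 1
  refine Finset.prod_congr rfl fun s hs => ?_
  have h1 := hf m hm l (Set.mem_univ l)
  rw [hl] at h1
  have hsl : s.1 ≠ l := by
    intro h
    obtain ⟨j, i⟩ := s
    simp only at h
    subst h
    exact Finsupp.mem_support_iff.mp hs (Finset.sum_eq_zero_iff.mp h1 i (Finset.mem_univ i))
  simp only [hz s hsl]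

/-- zeros in a block of forms which vanish when the block is zero -/
lemma block_zero [Fintype κ] [DecidableEq κ] [IsAlgClosed k] {ι : Type} [Fintype ι]
    (f : ι → MvPolynomial (Pc n) k) (u : ι → κ → ℕ) (hf : ∀ a, MH Set.univ (u a) (f a)) (l : κ)
    (hu : ∀ a, u a l ≠ 0) (hc : Fintype.card ι < n l + 1) (z : Pc n → k) :
    ∃ v : Fin (n l + 1) → k, v ≠ 0 ∧ ∀ a, aeval (upd z l v) (f a) = 0 := by
  set σv : Pc n → MvPolynomial (Fin (n l + 1)) k := fun t =>
    if h : t.1 = l then X (h ▸ t.2) else C (z t) with hσ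
  have hσe : ∀ (v : Fin (n l + 1) → k) (g : MvPolynomial (Pc n) k),
      eval v (aeval σv g) = aeval (upd z l v) g := by
    intro v g
    have h1 : (aeval v : MvPolynomial (Fin (n l + 1)) k →ₐ[k] k).comp (aeval σv) =
        aeval (upd z l v) := by
      apply MvPolynomial.algHom_ext
      rintro ⟨m, i⟩
      simp only [AlgHom.coe_comp, Function.comp_apply, aeval_X]
      by_cases hm : m = l
      · subst hm
        rw [upd_same, hσ]
        simp
      · rw [upd_ne _ _ _ _ hm, hσ]
        simp [hm]
    have h2 := congrArg (fun φ => φ g) h1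
    simp only [AlgHom.coe_comp, Function.comp_apply] at h2
    rw [← h2, aeval_eq_eval]
  obtain ⟨v, hv0, hv⟩ := Pool.Agent.H552R3.Tsen.exists_common_zero
    (k := k) (σ := Fin (n l + 1)) (ι := ι) (fun a => aeval σv (f a)) (by
      intro a
      rw [hσe]
      refine eval_upd_zero (hf a) l (hu a) _ ?_
      intro i
      rw [upd_same]
      rfl) (by
      rw [Fintype.card_fin]
      exact hc)
  refine ⟨v, hv0, fun a => ?_⟩
  have := hv a
  rwa [hσe] at this

lemma nz_upd [DecidableEq κ] {z : Pc n → k} (hz : Nz Set.univ z) (l : κ)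
    {v : Fin (n l + 1) → k} (hv : v ≠ 0) : Nz Set.univ (upd z l v) := by
  intro m _
  by_cases hm : m = l
  · subst hm
    by_contra hcon
    push Not at hcon
    apply hv
    funext i
    rw [← upd_same z m v i]
    exact hcon i
  · obtain ⟨i, hi⟩ := hz m (Set.mem_univ m)
    refine ⟨i, ?_⟩
    rw [upd_ne _ _ _ _ hm]
    exact hi

/-- a polynomial which is homogeneous of degree zero in all the blocks is a constant -/
lemma mh_zero {u : κ → ℕ} {f : MvPolynomial (Pc n) k} (hf : MH Set.univ u f)
    (hu : ∀ l, u l = 0) : ∃ c, f = C c := by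
  classical
  refine ⟨coeff 0 f, ?_⟩
  ext m
  rw [coeff_C]
  split_ifs with h
  · rw [h]
  · by_contra hcon
    apply h
    symm
    ext ⟨l, i⟩
    have h1 := hf m (mem_support_iff.mpr hcon) l (Set.mem_univ l)
    rw [hu l] at h1
    exact Finset.sum_eq_zero_iff.mp h1 i (Finset.mem_univ i)

end

theorem irr : S_IRR := by
  intro κ _ _ _ n k _ _ F hF hn hsm
  classical
  set Ω := AlgebraicClosure k with hΩ
  set φ := algebraMap k Ω with hφ
  have hF0 : F ≠ 0 := by
    intro h0
    obtain ⟨s, hs⟩ := hsm (fun _ => 1) (fun l _ => ⟨0, one_ne_zero⟩) (by rw [h0]; simp)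
    apply hs
    rw [h0]
    simp
  refine ⟨?_, ?_⟩
  · intro hu
    obtain ⟨l⟩ := ‹Nonempty κ›
    obtain ⟨c, hc, hFc⟩ := (MvPolynomial.isUnit_iff_eq_C_of_isReduced).mp hu
    have h1 : (0 : Pc n →₀ ℕ) ∈ F.support := by
      rw [mem_support_iff, hFc, coeff_C, if_pos rfl]
      exact hc.ne_zero
    have h2 := hF 0 h1 l (Set.mem_univ l)
    simp at h2
  · intro G H hGH
    by_contra hcon
    push Not at hcon
    obtain ⟨hGu, hHu⟩ := hcon
    have h0 : G * H ≠ 0 := by
      rw [← hGH]
      exact hF0
    obtain ⟨g, e, hge, hG, hH⟩ := mh_factor (by rw [← hGH]; exact hF) h0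
    have hG0 : G ≠ 0 := left_ne_zero_of_mul h0
    have hH0 : H ≠ 0 := right_ne_zero_of_mul h0
    have nonu : ∀ (P : MvPolynomial (Pc n) k) (w : κ → ℕ), P ≠ 0 → ¬ IsUnit P →
        MH Set.univ w P → ∃ l, w l ≠ 0 := by
      intro P w hP0 hPu hP
      by_contra hall
      push Not at hall
      obtain ⟨c, hc⟩ := mh_zero hP hall
      apply hPu
      rw [hc]
      have hc0 : c ≠ 0 := by
        rintro rfl
        rw [hc, C_0] at hP0
        exact hP0 rfl
      exact (IsUnit.mk0 c hc0).map C
    have hGm := MH.map φ hG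
    have hHm := MH.map φ hH
    -- the common zero
    obtain ⟨z, hz, hzG, hzH⟩ : ∃ z : Pc n → Ω, Nz Set.univ z ∧ aeval z (map φ G) = 0 ∧
        aeval z (map φ H) = 0 := by
      by_cases hex : ∃ l, g l ≠ 0 ∧ e l ≠ 0
      · obtain ⟨l, hgl, hel⟩ := hex
        obtain ⟨v, hv0, hv⟩ := block_zero (k := Ω) (ι := Fin 2) ![map φ G, map φ H] ![g, e]
          (by
            intro a
            fin_cases a
            · exact hGm
            · exact hHm) l (by
            intro a
            fin_cases a
            · exact hgl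
            · exact hel) (by
            rw [Fintype.card_fin]
            have := hn l
            omega) (fun _ => 1)
        exact ⟨_, nz_upd (fun l _ => ⟨0, one_ne_zero⟩) l hv0, hv 0, hv 1⟩
      · push Not at hex
        obtain ⟨l1, hl1⟩ := nonu G g hG0 hGu hG
        obtain ⟨l2, hl2⟩ := nonu H e hH0 hHu hH
        have hg2 : g l2 = 0 := by
          by_contra h
          exact hl2 (hex l2 h)
        have hl12 : l1 ≠ l2 := by
          rintro rfl
          exact hl1 hg2
        obtain ⟨v1, hv10, hv1⟩ := block_zero (k := Ω) (ι := Unit) (fun _ => map φ G)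
          (fun _ => g) (fun _ => hGm) l1 (fun _ => hl1) (by
            rw [Fintype.card_unit]
            have := hn l1
            omega) (fun _ => 1)
        obtain ⟨v2, hv20, hv2⟩ := block_zero (k := Ω) (ι := Unit) (fun _ => map φ H)
          (fun _ => e) (fun _ => hHm) l2 (fun _ => hl2) (by
            rw [Fintype.card_unit]
            have := hn l2
            omega) (upd (fun _ => 1) l1 v1)
        refine ⟨_, nz_upd (nz_upd (fun l _ => ⟨0, one_ne_zero⟩) l1 hv10) l2 hv20, ?_, hv2 ()⟩
        rw [← hv1 ()]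
        exact aeval_congr_block hGm l2 hg2 _ _ (fun s hs => upd_ne _ _ _ _ hs)
    rw [aeval_eq_eval] at hzG hzH
    obtain ⟨s, hs⟩ := hsm z hz (by
      rw [hGH, map_mul, map_mul, hzG, zero_mul])
    apply hs
    rw [hGH, map_mul, pderiv_mul, map_add, map_mul, map_mul, hzG, hzH, mul_zero, zero_mul,
      add_zero]

end Pool.Agent.Q129.HB
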