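import Pool.Agent.Q35.HB.Stm
import Pool.Agent.H552R3.Tsen.Zero

/-!
# HB-RAD: the radicals of the fibres are small
-/

set_option autoImplicit false

namespace Pool.Agent.Q129.HB

open MvPolynomial Pool.Agent.Q35.ST Pool.Agent.Q35.HB

/-- the chain rule for a derivation -/
lemma der_aeval {ι k Ω : Type} [Fintype ι] [Field k] [Field Ω] [Algebra k Ω]
    (D : Derivation k Ω Ω) (z : ι → Ω) (f : MvPolynomial ι k) :
    D (aeval z f) = ∑ s, aeval z (pderiv s f) * D (z s) := by
  classical
  induction f using MvPolynomial.induction_on with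
  | C a =>
    rw [aeval_C, D.map_algebraMap]
    symm
    refine Finset.sum_eq_zero fun s _ => ?_
    rw [pderiv_C, map_zero, zero_mul]
  | add p q hp hq =>
    rw [map_add, map_add, hp, hq, ← Finset.sum_add_distrib]
    refine Finset.sum_congr rfl fun s _ => ?_
    rw [map_add, map_add, add_mul]
  | mul_X p i hp =>
    rw [map_mul, D.leibniz, hp, aeval_X, smul_eq_mul, smul_eq_mul, Finset.mul_sum]
    have h1 : ∀ s, aeval z (pderiv s (p * X i)) * D (z s) =
        z i * (aeval z (pderiv s p) * D (z s)) + (if s = i then aeval z p * D (z i) else 0) := by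
      intro s
      rw [pderiv_mul, map_add, map_mul, map_mul, aeval_X, pderiv_X]
      by_cases hs : s = i
      · subst hs
        rw [if_pos rfl, Pi.single_eq_same, map_one]
        ring
      · rw [if_neg hs, Pi.single_eq_of_ne (Ne.symm hs), map_zero]
        ring
    rw [Finset.sum_congr rfl fun s _ => h1 s, Finset.sum_add_distrib, Finset.sum_ite_eq' ]
    rw [if_pos (Finset.mem_univ i), add_comm]

lemma upd_same {κ : Type} [DecidableEq κ] {n : κ → ℕ} {k : Type} (z : Pc n → k) (l : κ)
    (y : Fin (n l + 1) → k) (i : Fin (n l + 1)) : upd z l y ⟨l, i⟩ = y i := by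
  unfold upd
  simp

lemma upd_ne {κ : Type} [DecidableEq κ] {n : κ → ℕ} {k : Type} (z : Pc n → k) (l : κ)
    (y : Fin (n l + 1) → k) (s : Pc n) (hs : s.1 ≠ l) : upd z l y s = z s := by
  unfold upd
  rw [Function.update_of_ne hs]

/-- a polynomial of positive degree in the block `l` vanishes when the block is zero -/
lemma eval_upd_zero {κ : Type} [Fintype κ] [DecidableEq κ] {n : κ → ℕ} {k Ω : Type} [Field k]
    [Field Ω] [Algebra k Ω] {u : κ → ℕ} {f : MvPolynomial (Pc n) k} (hf : MH Set.univ u f) (l : κ)
    (hl : u l ≠ 0) (z : Pc n → Ω) (hz : ∀ i, z ⟨l, i⟩ = 0) : aeval z f = 0 := by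
  rw [f.as_sum, map_sum]
  refine Finset.sum_eq_zero fun m hm => ?_
  rw [aeval_monomial]
  have h1 := hf m hm l (Set.mem_univ l)
  obtain ⟨i, hi⟩ : ∃ i, m ⟨l, i⟩ ≠ 0 := by
    by_contra hcon
    push Not at hcon
    apply hl
    rw [← h1]
    exact Finset.sum_eq_zero fun i _ => hcon i
  rw [Finsupp.prod, Finset.prod_eq_zero (Finsupp.mem_support_iff.mpr hi), mul_zero]
  rw [hz i, zero_pow hi]

theorem rad (hD : S_DEXT) : S_RAD := by
  intro κ _ _ n k Ω _ _ _ _ _ _ F hF hsm l ξ hξ I hI hind V hV
  classical
  by_contra hcon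
  push Not at hcon
  -- the number of coordinates outside the block
  set B : Finset (Pc n) := Finset.univ.filter (fun t => t.1 ≠ l) with hB
  have hBc : B.card + (n l + 1) = Fintype.card (Pc n) := by
    have h1 : (Finset.univ.filter (fun t : Pc n => ¬ t.1 ≠ l)).card = n l + 1 := by
      have h2 : (Finset.univ.filter (fun t : Pc n => ¬ t.1 ≠ l)) =
          (Finset.univ : Finset (Fin (n l + 1))).map
            ⟨fun i => (⟨l, i⟩ : Pc n), fun i j h => by simpa using h⟩ := by
        ext ⟨m, i⟩
        simp only [Finset.mem_filter, Finset.mem_univ, true_and, not_not, Finset.mem_map,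
          Function.Embedding.coeFn_mk]
        constructor
        · rintro rfl
          exact ⟨i, rfl⟩
        · rintro ⟨j, hj⟩
          exact (congrArg Sigma.fst hj).symm
      rw [h2, Finset.card_map, Finset.card_univ, Fintype.card_fin]
    have h3 := Finset.card_filter_add_card_filter_not (s := (Finset.univ : Finset (Pc n)))
      (fun t => t.1 ≠ l)
    rw [h1, Finset.card_univ] at h3
    exact h3
  have hIB : I ⊆ B := fun t ht => by
    rw [hB, Finset.mem_filter]
    exact ⟨Finset.mem_univ _, hI t ht⟩
  have hcard : (B \ I).card + I.card = B.card := Finset.card_sdiff_add_card_eq_card hIB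
  have hlt : (B \ I).card < Module.finrank Ω V := by omega
  -- the common zero
  set b := Module.finBasis Ω V with hb
  set σv : Pc n → MvPolynomial (Fin (Module.finrank Ω V)) Ω := fun t =>
    if h : t.1 = l then ∑ a, X a * C ((b a : Fin (n l + 1) → Ω) (h ▸ t.2)) else C (ξ t) with hσ
  have hσe : ∀ (c : Fin (Module.finrank Ω V) → Ω) (g : MvPolynomial (Pc n) k),
      eval c (aeval σv g) =
        aeval (upd ξ l (fun i => ∑ a, c a * (b a : Fin (n l + 1) → Ω) i)) g := by
    intro c g
    have h1 : ((aeval c : MvPolynomial (Fin (Module.finrank Ω V)) Ω →ₐ[Ω] Ω).restrictScalars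
        k).comp (aeval σv : MvPolynomial (Pc n) k →ₐ[k] _) =
        aeval (upd ξ l (fun i => ∑ a, c a * (b a : Fin (n l + 1) → Ω) i)) := by
      apply MvPolynomial.algHom_ext
      rintro ⟨m, i⟩
      simp only [AlgHom.coe_comp, Function.comp_apply, aeval_X, AlgHom.coe_restrictScalars']
      by_cases hm : m = l
      · subst hm
        rw [upd_same, hσ]
        simp
      · rw [upd_ne _ _ _ _ hm, hσ]
        simp [hm]
    have h2 := congrArg (fun φ => φ g) h1
    simp only [AlgHom.coe_comp, Function.comp_apply, AlgHom.coe_restrictScalars'] at h2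
    rw [← h2]
    rw [aeval_eq_eval]
  obtain ⟨c, hc0, hc⟩ := Pool.Agent.H552R3.Tsen.exists_common_zero
    (k := Ω) (σ := Fin (Module.finrank Ω V)) (ι := (B \ I : Finset (Pc n)))
    (fun s => aeval σv (pderiv (s : Pc n) F)) (by
      rintro ⟨s, hs⟩
      simp only
      rw [hσe]
      have hsl : s.1 ≠ l := by
        rw [Finset.mem_sdiff, hB, Finset.mem_filter] at hs
        exact hs.1.2
      refine eval_upd_zero (MH.pderiv hF s) l ?_ _ ?_
      · rw [if_neg (Ne.symm hsl)]
        norm_num
      · intro i
        rw [upd_same]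
        simp) (by
      rw [Fintype.card_coe, Fintype.card_fin]
      exact hlt)
  set v : Fin (n l + 1) → Ω := fun i => ∑ a, c a * (b a : Fin (n l + 1) → Ω) i with hv
  have hvV : v = ((∑ a, c a • b a : V) : Fin (n l + 1) → Ω) := by
    rw [Submodule.coe_sum]
    funext i
    rw [Finset.sum_apply]
    rfl
  have hvmem : v ∈ V := by
    rw [hvV]
    exact Submodule.coe_mem _
  have hv0 : v ≠ 0 := by
    intro h0
    rw [hvV, Submodule.coe_eq_zero] at h0
    apply hc0
    funext a
    exact Fintype.linearIndependent_iff.mp b.linearIndependent c h0 a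
  set z := upd ξ l v with hz
  have hzl : ∀ i, aeval z (pderiv ⟨l, i⟩ F) = 0 := hV v hvmem
  have hzB : ∀ s ∈ B \ I, aeval z (pderiv s F) = 0 := by
    intro s hs
    have := hc ⟨s, hs⟩
    simp only at this
    rw [hσe] at this
    exact this
  have hF0 : aeval z F = 0 := by
    have h1 := MH.EU hF (Set.mem_univ l)
    have h2 := congrArg (aeval z) h1
    unfold EU at h2
    rw [map_sum, map_mul] at h2
    have h3 : ∑ i : Fin (n l + 1), aeval z (X (⟨l, i⟩ : Pc n) * pderiv (⟨l, i⟩ : Pc n) F) = 0 := by
      refine Finset.sum_eq_zero fun i _ => ?_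
      rw [map_mul, hzl i, mul_zero]
    rw [h3, eq_comm] at h2
    refine (mul_eq_zero.mp h2).resolve_left ?_
    rw [aeval_C]
    intro h4
    rw [map_natCast] at h4
    norm_num at h4
  have hzI : ∀ t ∈ I, aeval z (pderiv t F) = 0 := by
    intro t ht
    obtain ⟨D, hDt⟩ := hD I k Ω (fun s => ξ s) (Pi.single ⟨t, ht⟩ 1) (by
      intro f hf
      have hf0 : f = 0 := by
        have := (algebraicIndependent_iff.mp hind) f hf
        exact this
      rw [hf0]
      simp)
    have h1 := der_aeval D z F
    rw [hF0, map_zero] at h1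
    have h2 : ∀ s, aeval z (pderiv s F) * D (z s) =
        if s = t then aeval z (pderiv t F) else 0 := by
      intro s
      by_cases hsl : s.1 = l
      · obtain ⟨m, i⟩ := s
        simp only at hsl
        subst hsl
        rw [hzl i, zero_mul, if_neg]
        rintro rfl
        exact hI _ ht rfl
      · by_cases hsI : s ∈ I
        · rw [hz, upd_ne _ _ _ _ hsl]
          have h3 := hDt ⟨s, hsI⟩
          simp only at h3
          rw [h3]
          by_cases hst : s = t
          · subst hst
            rw [if_pos rfl, Pi.single_eq_same, mul_one]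
          · rw [if_neg hst, Pi.single_eq_of_ne, mul_zero]
            intro h4
            exact hst (congrArg Subtype.val h4)
        · rw [hzB s, zero_mul, if_neg]
          · rintro rfl
            exact hsI ht
          · rw [Finset.mem_sdiff, hB, Finset.mem_filter]
            exact ⟨⟨Finset.mem_univ _, hsl⟩, hsI⟩
    rw [Finset.sum_congr rfl fun s _ => h2 s, Finset.sum_ite_eq', if_pos (Finset.mem_univ t)] at h1
    exact h1.symm
  have hall : ∀ s, aeval z (pderiv s F) = 0 := by
    intro s
    by_cases hsl : s.1 = l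
    · obtain ⟨m, i⟩ := s
      simp only at hsl
      subst hsl
      exact hzl i
    · by_cases hsI : s ∈ I
      · exact hzI s hsI
      · apply hzB
        rw [Finset.mem_sdiff, hB, Finset.mem_filter]
        exact ⟨⟨Finset.mem_univ _, hsl⟩, hsI⟩
  obtain ⟨s, hs⟩ := hsm z (by
    intro m _
    by_cases hm : m = l
    · subst hm
      by_contra hcon2
      push Not at hcon2
      apply hv0
      funext i
      rw [← upd_same ξ m v i]
      exact hcon2 i
    · obtain ⟨i, hi⟩ := hξ m hm
      refine ⟨i, ?_⟩
      rw [hz, upd_ne _ _ _ _ hm]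
      exact hi) (by
    rw [eval_map, ← aeval_def]
    exact hF0)
  apply hs
  rw [pderiv_map, eval_map, ← aeval_def]
  exact hall s

end Pool.Agent.Q129.HB
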